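import Pool.Agent.Y462.PA.Stm

/-!
# PA-COV: the cover of `M ⊔ Bd d P M` is contracting, and its elements which act trivially die
-/

set_option autoImplicit false

open Classical

namespace Pool.Agent.Y430.PA

open Pool.Agent.Y462.SS hiding Bd M
open Pool.Agent.Y462.PA

variable {X : Type} {d : X} {P : ℕ} {M E : Subgroup (T X)}

theorem al_sec (b : T X) (n : ℕ) : al (dray d) (sec b d) n = al (dray d) b (n + 1) :=
  al_sh (dray d) b n

theorem bd_sec {b : T X} (hb : b ∈ Bd d P M) : sec b d ∈ Bd d P M := by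
  obtain ⟨h1, h2, h3⟩ := hb
  refine ⟨fun n => ?_, ?_, fun n x hx => ?_⟩
  · rw [al_sec]
    exact h1 (n + 1)
  · rw [al_sec, al, h2]
    rfl
  · rw [al_sec]
    exact h3 (n + 1) x hx

variable (h1 : E ≤ M) (h2 : E ≤ Bd d P M)

/-- the letters of `M` in the cover -/
noncomputable abbrev iM : M →* Cov d P M E h1 h2 := Am.inl _ _

/-- the letters of `Bd d P M` in the cover -/
noncomputable abbrev iB : Bd d P M →* Cov d P M E h1 h2 := Am.inr _ _

/-- the recursion on `M` -/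
noncomputable def psiM (hM : SelfSim M) : M →* Wr X (Cov d P M E h1 h2) where
  toFun h := ⟨fun x => iM h1 h2 ⟨sec h.1 x, hM h.1 h.2 x⟩, root h.1⟩
  map_one' := by
    apply Wr.ext
    · funext x
      change iM h1 h2 _ = 1
      rw [← map_one (iM h1 h2)]
      exact congrArg _ (Subtype.ext (sec_one x))
    · exact root_one
  map_mul' a b := by
    apply Wr.ext
    · funext x
      change iM h1 h2 _ = iM h1 h2 _ * iM h1 h2 _
      rw [← map_mul]
      congr 1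
      exact Subtype.ext (sec_mul a.1 b.1 x)
    · exact root_mul a.1 b.1

/-- the recursion on `Bd d P M` -/
noncomputable def psiB : Bd d P M →* Wr X (Cov d P M E h1 h2) where
  toFun b := ⟨fun x => if hx : x = d then iB h1 h2 ⟨sec b.1 d, bd_sec b.2⟩ else
    iM h1 h2 ⟨sec b.1 x, b.2.2.2 0 x hx⟩, root b.1⟩
  map_one' := by
    apply Wr.ext
    · funext x
      change (if hx : x = d then iB h1 h2 _ else iM h1 h2 _) = 1
      by_cases hx : x = d
      · rw [dif_pos hx, ← map_one (iB h1 h2)]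
        exact congrArg _ (Subtype.ext (sec_one d))
      · rw [dif_neg hx, ← map_one (iM h1 h2)]
        exact congrArg _ (Subtype.ext (sec_one x))
    · exact root_one
  map_mul' a b := by
    have hd : root b.1 d = d := b.2.1 0
    apply Wr.ext
    · funext x
      change (if hx : x = d then iB h1 h2 ⟨sec (a.1 * b.1) d, _⟩ else
          iM h1 h2 ⟨sec (a.1 * b.1) x, _⟩) =
        (if hx : root b.1 x = d then iB h1 h2 ⟨sec a.1 d, _⟩ else
          iM h1 h2 ⟨sec a.1 (root b.1 x), _⟩) *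
        (if hx : x = d then iB h1 h2 ⟨sec b.1 d, _⟩ else iM h1 h2 ⟨sec b.1 x, _⟩)
      by_cases hx : x = d
      · have hx' : root b.1 x = d := by rw [hx, hd]
        rw [dif_pos hx, dif_pos hx, dif_pos hx', ← map_mul]
        congr 1
        apply Subtype.ext
        change sec (a.1 * b.1) d = sec a.1 d * sec b.1 d
        rw [sec_mul, hd]
      · have hx' : root b.1 x ≠ d := fun h => hx ((root b.1).injective (h.trans hd.symm))
        rw [dif_neg hx, dif_neg hx, dif_neg hx', ← map_mul]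
        congr 1
        exact Subtype.ext (sec_mul a.1 b.1 x)
    · exact root_mul a.1 b.1

/-- the recursion of the cover -/
noncomputable def psi (hM : SelfSim M) (hE : ∀ h ∈ M, h ∈ Bd d P M → h ∈ E) :
    Cov d P M E h1 h2 →* Wr X (Cov d P M E h1 h2) :=
  Am.lift _ _ (psiM h1 h2 hM) (psiB h1 h2) (by
    intro e
    apply Wr.ext
    · funext x
      change iM h1 h2 ⟨sec e.1 x, _⟩ = (if hx : x = d then iB h1 h2 ⟨sec e.1 d, _⟩ else
        iM h1 h2 ⟨sec e.1 x, _⟩)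
      by_cases hx : x = d
      · rw [dif_pos hx]
        subst hx
        exact Am.glue (Subgroup.inclusion h1) (Subgroup.inclusion h2)
          ⟨sec e.1 x, hE _ (hM _ (h1 e.2) x) (bd_sec (h2 e.2))⟩
      · rw [dif_neg hx]
    · rfl)

variable (hM : SelfSim M) (hE : ∀ h ∈ M, h ∈ Bd d P M → h ∈ E)

theorem psi_iM (h : M) : psi h1 h2 hM hE (iM h1 h2 h) = psiM h1 h2 hM h := by
  unfold psi
  exact Am.lift_inl _ _ _ _ _ _

theorem psi_iB (b : Bd d P M) : psi h1 h2 hM hE (iB h1 h2 b) = psiB h1 h2 b := by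
  unfold psi
  exact Am.lift_inr _ _ _ _ _ _

theorem psi_iM_s (h : M) (x : X) :
    (psi h1 h2 hM hE (iM h1 h2 h)).s x = iM h1 h2 ⟨sec h.1 x, hM h.1 h.2 x⟩ := by
  rw [psi_iM]
  rfl

theorem psi_iM_p (h : M) : (psi h1 h2 hM hE (iM h1 h2 h)).p = root h.1 := by
  rw [psi_iM]
  rfl

theorem psi_iB_d (b : Bd d P M) :
    (psi h1 h2 hM hE (iB h1 h2 b)).s d = iB h1 h2 ⟨sec b.1 d, bd_sec b.2⟩ := by
  rw [psi_iB]
  exact dif_pos rfl

theorem psi_iB_s (b : Bd d P M) (x : X) (hx : x ≠ d) :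
    (psi h1 h2 hM hE (iB h1 h2 b)).s x = iM h1 h2 ⟨sec b.1 x, b.2.2.2 0 x hx⟩ := by
  rw [psi_iB]
  exact dif_neg hx

theorem psi_iB_p (b : Bd d P M) : (psi h1 h2 hM hE (iB h1 h2 b)).p = root b.1 := by
  rw [psi_iB]
  rfl

theorem act_iM (w : List X) (h : M) : act (psi h1 h2 hM hE) (iM h1 h2 h) w = h.1.1 w := by
  induction w generalizing h with
  | nil => rw [act_nil, nil_eq]
  | cons x w ih => rw [act_cons, cons_eq, psi_iM_s, psi_iM_p, ih]

theorem act_iB (w : List X) (b : Bd d P M) :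
    act (psi h1 h2 hM hE) (iB h1 h2 b) w = b.1.1 w := by
  induction w generalizing b with
  | nil => rw [act_nil, nil_eq]
  | cons x w ih =>
    by_cases hx : x = d
    · rw [act_cons, cons_eq, hx, psi_iB_d, psi_iB_p, ih]
    · rw [act_cons, cons_eq, psi_iB_s _ _ _ _ _ _ hx, psi_iB_p, act_iM]

theorem tau_iM (h : M) : tau (psi h1 h2 hM hE) (iM h1 h2 h) = h.1 := by
  apply Subtype.ext
  apply Equiv.ext
  exact fun w => act_iM h1 h2 hM hE w h

theorem tau_iB (b : Bd d P M) : tau (psi h1 h2 hM hE) (iB h1 h2 b) = b.1 := by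
  apply Subtype.ext
  apply Equiv.ext
  exact fun w => act_iB h1 h2 hM hE w b

/-! ## words -/

/-- products with at most `n` letters in `Bd d P M` -/
inductive W : ℕ → Cov d P M E h1 h2 → Prop
  | zero (h : M) : W 0 (iM h1 h2 h)
  | succ (n : ℕ) (γ : Cov d P M E h1 h2) (b : Bd d P M) (h : M) : W n γ →
      W (n + 1) (γ * iB h1 h2 b * iM h1 h2 h)

theorem W_right {n : ℕ} {γ : Cov d P M E h1 h2} (hγ : W h1 h2 n γ) (h : M) :
    W h1 h2 n (γ * iM h1 h2 h) := by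
  cases hγ with
  | zero h0 =>
    rw [← map_mul]
    exact W.zero _
  | succ n γ b h0 hγ =>
    rw [mul_assoc, ← map_mul]
    exact W.succ _ _ _ _ hγ

theorem W_B {n : ℕ} {γ : Cov d P M E h1 h2} (hγ : W h1 h2 n γ) (b : Bd d P M) :
    W h1 h2 (n + 1) (γ * iB h1 h2 b) := by
  have h3 := W.succ n γ b 1 hγ
  rwa [map_one, mul_one] at h3

theorem W_succ {n : ℕ} {γ : Cov d P M E h1 h2} (hγ : W h1 h2 n γ) : W h1 h2 (n + 1) γ := by
  have h3 := W_B h1 h2 hγ 1
  rwa [map_one, mul_one] at h3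

theorem W_mul {m n : ℕ} {γ δ : Cov d P M E h1 h2} (hγ : W h1 h2 m γ) (hδ : W h1 h2 n δ) :
    W h1 h2 (m + n) (γ * δ) := by
  induction hδ with
  | zero h => exact W_right h1 h2 hγ h
  | succ n δ b h _ ih =>
    rw [← mul_assoc, ← mul_assoc]
    exact W.succ _ _ _ _ ih

theorem W_inv {n : ℕ} {γ : Cov d P M E h1 h2} (hγ : W h1 h2 n γ) : W h1 h2 n γ⁻¹ := by
  induction hγ with
  | zero h =>
    rw [← map_inv]
    exact W.zero _
  | succ n δ b h _ ih =>
    have h3 := W_mul h1 h2 (W_B h1 h2 (W.zero h⁻¹) b⁻¹) ih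
    rw [mul_inv_rev, mul_inv_rev, ← map_inv, ← map_inv, ← mul_assoc, add_comm]
    rw [zero_add] at h3
    exact h3

theorem W_all (γ : Cov d P M E h1 h2) : ∃ n, W h1 h2 n γ := by
  let S : Subgroup (Cov d P M E h1 h2) :=
    { carrier := {γ | ∃ n, W h1 h2 n γ}
      one_mem' := ⟨0, by
        have h3 := W.zero (h1 := h1) (h2 := h2) 1
        rwa [map_one] at h3⟩
      mul_mem' := by
        rintro a b ⟨m, hm⟩ ⟨n, hn⟩
        exact ⟨m + n, W_mul h1 h2 hm hn⟩
      inv_mem' := by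
        rintro a ⟨m, hm⟩
        exact ⟨m, W_inv h1 h2 hm⟩ }
  have hS : S = ⊤ := by
    rw [eq_top_iff, ← Am.sup_range (Subgroup.inclusion h1) (Subgroup.inclusion h2), sup_le_iff]
    refine ⟨?_, ?_⟩
    · rintro _ ⟨h, rfl⟩
      exact ⟨0, W.zero h⟩
    · rintro _ ⟨b, rfl⟩
      refine ⟨1, ?_⟩
      have h3 := W_B h1 h2 (W.zero 1) b
      rwa [map_one, one_mul] at h3
  have h3 : γ ∈ S := hS ▸ Subgroup.mem_top γ
  exact h3

theorem W_sec {n : ℕ} {γ : Cov d P M E h1 h2} (hγ : W h1 h2 n γ) (x : X) :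
    W h1 h2 n ((psi h1 h2 hM hE γ).s x) := by
  induction hγ generalizing x with
  | zero h =>
    rw [psi_iM_s]
    exact W.zero _
  | succ n γ b h _ ih =>
    rw [map_mul, map_mul, Wr.mul_s, Wr.mul_s, psi_iM_s]
    apply W_right
    by_cases hx : (psi h1 h2 hM hE (iM h1 h2 h)).p x = d
    · rw [hx, psi_iB_d]
      exact W_B h1 h2 (ih _) _
    · rw [psi_iB_s _ _ _ _ _ _ hx]
      exact W_succ h1 h2 (W_right h1 h2 (ih _) _)

/-- the elements whose iterated sections are eventually short -/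
inductive EN : Cov d P M E h1 h2 → Prop
  | nuc (h : M) (b : Bd d P M) (h' : M) : EN (iM h1 h2 h * iB h1 h2 b * iM h1 h2 h')
  | step (γ : Cov d P M E h1 h2) : (∀ x, EN ((psi h1 h2 hM hE γ).s x)) → EN γ

theorem en_red (m : ℕ) (H : ∀ γ, W h1 h2 (m + 1) γ → EN h1 h2 hM hE γ)
    (u : Cov d P M E h1 h2) (hu : W h1 h2 m u) (b₁ b₂ : Bd d P M) (k₁ k₂ : M)
    (hrec : root k₁.1 d = d → ∀ (x : X) (u' : Cov d P M E h1 h2), W h1 h2 m u' →
        EN h1 h2 hM hE (u' * iB h1 h2 ⟨sec b₁.1 d, bd_sec b₁.2⟩ *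
          iM h1 h2 ⟨sec k₁.1 d, hM _ k₁.2 d⟩ * iB h1 h2 ⟨sec b₂.1 d, bd_sec b₂.2⟩ *
            iM h1 h2 ⟨sec k₂.1 x, hM _ k₂.2 x⟩)) :
    EN h1 h2 hM hE (u * iB h1 h2 b₁ * iM h1 h2 k₁ * iB h1 h2 b₂ * iM h1 h2 k₂) := by
  apply EN.step
  intro x
  simp only [map_mul, Wr.mul_s, psi_iM_s, psi_iM_p]
  by_cases h3 : root k₂.1 x = d
  · simp only [h3, psi_iB_d, psi_iB_p]
    have h4 : root b₂.1 d = d := b₂.2.1 0
    simp only [h4]
    by_cases h5 : root k₁.1 d = d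
    · simp only [h5, psi_iB_d]
      exact hrec h5 x _ (W_sec h1 h2 hM hE hu _)
    · rw [psi_iB_s _ _ _ _ _ _ h5]
      apply H
      exact W_right h1 h2 (W_B h1 h2 (W_right h1 h2 (W_right h1 h2
        (W_sec h1 h2 hM hE hu _) _) _) _) _
  · rw [psi_iB_s _ _ _ _ _ _ h3]
    apply H
    have h6 : ∀ (y z : X), W h1 h2 (m + 1) ((psi h1 h2 hM hE u).s y *
        (psi h1 h2 hM hE (iB h1 h2 b₁)).s z) := by
      intro y z
      by_cases hz : z = d
      · rw [hz, psi_iB_d]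
        exact W_B h1 h2 (W_sec h1 h2 hM hE hu _) _
      · rw [psi_iB_s _ _ _ _ _ _ hz]
        exact W_succ h1 h2 (W_right h1 h2 (W_sec h1 h2 hM hE hu _) _)
    exact W_right h1 h2 (W_right h1 h2 (W_right h1 h2 (h6 _ _) _) _) _

theorem en_t (m : ℕ) (H : ∀ γ, W h1 h2 (m + 1) γ → EN h1 h2 hM hE γ) (t : ℕ)
    (u : Cov d P M E h1 h2) (hu : W h1 h2 m u) (b₁ b₂ : Bd d P M) (k₁ k₂ : M)
    (ht : al (dray d) k₁.1 t ∈ E ∨ root (al (dray d) k₁.1 t) d ≠ d) :
    EN h1 h2 hM hE (u * iB h1 h2 b₁ * iM h1 h2 k₁ * iB h1 h2 b₂ * iM h1 h2 k₂) := by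
  induction t generalizing u b₁ b₂ k₁ k₂ with
  | zero =>
    by_cases h3 : k₁.1 ∈ E
    · apply H
      have h4 : iM h1 h2 k₁ = iB h1 h2 ⟨k₁.1, h2 h3⟩ :=
        Am.glue (Subgroup.inclusion h1) (Subgroup.inclusion h2) ⟨k₁.1, h3⟩
      rw [h4, mul_assoc u, ← map_mul, mul_assoc u, ← map_mul]
      exact W.succ _ _ _ _ hu
    · have h4 : root k₁.1 d ≠ d := ht.resolve_left h3
      exact en_red h1 h2 hM hE m H u hu b₁ b₂ k₁ k₂ fun h => absurd h h4
  | succ t ih =>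
    refine en_red h1 h2 hM hE m H u hu b₁ b₂ k₁ k₂ ?_
    intro h3 x u' hu'
    refine ih u' hu' _ _ _ _ ?_
    change al (dray d) (sec k₁.1 d) t ∈ E ∨ root (al (dray d) (sec k₁.1 d) t) d ≠ d
    rw [al_sec]
    exact ht

theorem en_all (hF : ∀ h ∈ M, Fx d h → ∃ m, al (dray d) h m ∈ E) (n : ℕ) :
    ∀ γ, W h1 h2 n γ → EN h1 h2 hM hE γ := by
  induction n with
  | zero =>
    intro γ hγ
    cases hγ with
    | zero h =>
      have h3 := EN.nuc (h1 := h1) (h2 := h2) (hM := hM) (hE := hE) h 1 1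
      rwa [map_one, map_one, mul_one, mul_one] at h3
  | succ n ih =>
    intro γ hγ
    cases hγ with
    | succ n u b₂ k₂ hu =>
      cases hu with
      | zero h => exact EN.nuc h b₂ k₂
      | succ m u b₁ k₁ hu =>
        by_cases h3 : Fx d k₁.1
        · obtain ⟨t, ht⟩ := hF _ k₁.2 h3
          exact en_t h1 h2 hM hE m ih t u hu b₁ b₂ k₁ k₂ (Or.inl ht)
        · obtain ⟨t, ht⟩ := not_forall.1 h3
          exact en_t h1 h2 hM hE m ih t u hu b₁ b₂ k₁ k₂ (Or.inr ht)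

/-- elements that act trivially die -/
theorem dies_of_tau (hF : ∀ h ∈ M, Fx d h → ∃ m, al (dray d) h m ∈ E) {γ : Cov d P M E h1 h2}
    (h : tau (psi h1 h2 hM hE) γ = 1) : Dies (psi h1 h2 hM hE) γ := by
  obtain ⟨n, hn⟩ := W_all h1 h2 γ
  have h0 := en_all h1 h2 hM hE hF n γ hn
  clear hn
  induction h0 with
  | nuc k b k' =>
    rw [map_mul, map_mul, tau_iM, tau_iM, tau_iB] at h
    have h3 : b.1 ∈ M := by
      have h4 : b.1 = k.1⁻¹ * k'.1⁻¹ := by
        rw [eq_inv_mul_iff_mul_eq]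
        exact eq_inv_of_mul_eq_one_left h
      rw [h4]
      exact mul_mem (inv_mem k.2) (inv_mem k'.2)
    have h5 := hE _ h3 b.2
    have h6 : iM h1 h2 ⟨b.1, h3⟩ = iB h1 h2 b :=
      Am.glue (Subgroup.inclusion h1) (Subgroup.inclusion h2) ⟨b.1, h5⟩
    have h7 : iM h1 h2 k * iB h1 h2 b * iM h1 h2 k' = 1 := by
      rw [← h6, ← map_mul, ← map_mul, ← map_one (iM h1 h2)]
      exact congrArg _ (Subtype.ext h)
    rw [h7]
    exact Dies.one
  | step γ _ ih =>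
    apply Dies.step
    · rw [← root_tau, h, root_one]
    · intro x
      apply ih
      rw [← sec_tau, h, sec_one]

theorem t_cov : S_COV := by
  intro X d P _ M E h1 h2 hM hE hF
  refine ⟨psi h1 h2 hM hE, tau (psi h1 h2 hM hE), ?_, ?_, ?_, ?_, ?_, ?_, ?_, ?_⟩
  · exact fun h x hx => psi_iM_s h1 h2 hM hE h x
  · exact fun h => psi_iM_p h1 h2 hM hE h
  · exact fun b hb => psi_iB_d h1 h2 hM hE b
  · exact fun b x hx hxd => psi_iB_s h1 h2 hM hE b x hxd
  · exact fun b => psi_iB_p h1 h2 hM hE b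
  · exact fun h => tau_iM h1 h2 hM hE h
  · exact fun b => tau_iB h1 h2 hM hE b
  · exact fun γ => ⟨dies_of_tau h1 h2 hM hE hF, tau_of_dies _⟩

end Pool.Agent.Y430.PA
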